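import Pool.Agent.H41.AV.Defs

set_option autoImplicit false

namespace Pool.Agent.H656.AV

open Equiv Finset Pool.Agent.H41.AV
open scoped Nat

lemma union_bound {α I : Type} [Fintype α] [Fintype I] (S : I → Set α) (c : ℝ)
    (h : ∀ i, ((S i).ncard : ℝ) ≤ c) (hlt : (Fintype.card I : ℝ) * c < Fintype.card α) :
    ∃ q, ∀ i, q ∉ S i := by
  classical
  by_contra hno
  push Not at hno
  have h1 : (univ : Finset α) ⊆ (univ : Finset I).biUnion (fun i => univ.filter (fun q => q ∈ S i)) := by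
    intro q _
    obtain ⟨i, hi⟩ := hno q
    exact mem_biUnion.2 ⟨i, mem_univ _, mem_filter.2 ⟨mem_univ _, hi⟩⟩
  have h2 := (card_le_card h1).trans card_biUnion_le
  have h3 : ∀ i, (univ.filter (fun q => q ∈ S i)).card = (S i).ncard := by
    intro i
    rw [Set.ncard_eq_toFinset_card' (S i)]
    congr 1
    ext q
    simp
  have h4 : (Fintype.card α : ℝ) ≤ ∑ i : I, ((S i).ncard : ℝ) := by
    rw [card_univ] at h2
    have h5 : ((Fintype.card α : ℕ) : ℝ) ≤ ((∑ i : I, (univ.filter (fun q => q ∈ S i)).card : ℕ) : ℝ) := by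
      exact_mod_cast h2
    refine h5.trans (le_of_eq ?_)
    push_cast
    exact sum_congr rfl (fun i _ => by rw [h3 i])
  have h6 : ∑ i : I, ((S i).ncard : ℝ) ≤ ∑ _i : I, c := sum_le_sum (fun i _ => h i)
  rw [sum_const, card_univ, nsmul_eq_mul] at h6
  linarith

lemma small (b : ℝ) (hb : 0 < b) : ∃ n₀ : ℕ, ∀ n : ℕ, n₀ ≤ n → 0 < n →
    ((n : ℝ) + ((n : ℝ) + (n : ℝ) * n)) * Real.exp (-(b * n)) < 1 := by
  obtain ⟨N, hN⟩ := exists_nat_gt (18 / b ^ 3)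
  refine ⟨N, fun n hn hn0 => ?_⟩
  have h1 : (1 : ℝ) ≤ n := by exact_mod_cast hn0
  have h2 : 18 / b ^ 3 < n := lt_of_lt_of_le hN (by exact_mod_cast hn)
  have h3 : 18 < n * b ^ 3 := by
    rwa [div_lt_iff₀ (by positivity)] at h2
  have h4 := Real.pow_div_factorial_le_exp (b * n) (by positivity) 3
  have h5 : ((3 ! : ℕ) : ℝ) = 6 := by norm_num [Nat.factorial]
  rw [h5] at h4
  have h6 : (n : ℝ) + ((n : ℝ) + (n : ℝ) * n) ≤ 3 * (n : ℝ) ^ 2 := by nlinarith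
  have h7 : 3 * (n : ℝ) ^ 2 < Real.exp (b * n) := by
    refine lt_of_lt_of_le ?_ h4
    have h8 : 18 * (n : ℝ) ^ 2 < (n * b ^ 3) * (n : ℝ) ^ 2 := by
      apply mul_lt_mul_of_pos_right h3
      positivity
    have h9 : (b * n) ^ 3 = (n * b ^ 3) * (n : ℝ) ^ 2 := by ring
    rw [h9]
    linarith
  rw [Real.exp_neg, ← div_eq_mul_inv, div_lt_one (Real.exp_pos _)]
  linarith

theorem good (hc : S_CONC) (hm : S_MEAN) (hl : S_LIP) (hl2 : S_LIP2) : S_GOOD := by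
  intro ε η B hε hε1 hη hB
  have hBr : (1 : ℝ) ≤ B := by exact_mod_cast hB
  set c : ℝ := min (ε / 2) (η / 2) with hcdef
  have hc0 : 0 < c := lt_min (by linarith) (by linarith)
  have hc1 : c ≤ ε / 2 := min_le_left _ _
  have hc2 : c ≤ η / 2 := min_le_right _ _
  obtain ⟨N1, hN1⟩ := small (c ^ 2 / (256 * B ^ 2)) (by positivity)
  obtain ⟨N2, hN2⟩ := exists_nat_gt (4 / η)
  refine ⟨max (max N1 N2) 2, ?_⟩
  intro G _ _ _ A hn hA
  have hn1 : N1 ≤ Fintype.card G := le_trans (le_trans (le_max_left _ _) (le_max_left _ _)) hn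
  have hn2 : N2 ≤ Fintype.card G := le_trans (le_trans (le_max_right _ _) (le_max_left _ _)) hn
  have hn3 : 2 ≤ Fintype.card G := le_trans (le_max_right _ _) hn
  set n : ℕ := Fintype.card G with hndef
  have hn0 : 0 < n := by omega
  have hnr : (0 : ℝ) < n := by exact_mod_cast hn0
  have hηn : 2 ≤ η / 2 * n := by
    have h1 : 4 / η < n := lt_of_lt_of_le hN2 (by exact_mod_cast hn2)
    rw [div_lt_iff₀ hη] at h1
    linarith
  have hcell : ∀ x, (cells A x).card ≤ n := by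
    intro x
    have h1 := hA x
    have h2 : ((cells A x).card : ℝ) ≤ n := by nlinarith
    exact_mod_cast h2
  have hF : (0 : ℝ) < (n ! : ℝ) ^ 2 := by positivity
  have hpr : ∑ x, pr A x ≤ (1 - ε) * n := by
    have h1 : ∀ x ∈ (univ : Finset G), pr A x ≤ 1 - ε := by
      intro x _
      unfold pr
      rw [div_le_iff₀ hnr]
      exact hA x
    have h2 := sum_le_card_nsmul univ (fun x => pr A x) (1 - ε) h1
    rw [card_univ, nsmul_eq_mul] at h2
    linarith [mul_comm (1 - ε) (n : ℝ)]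
  obtain ⟨m1, m2, m3⟩ := hm G A B hn3 hB hcell
  set E : ℝ := Real.exp (-((c * n) ^ 2 / (4 * n * (8 * B : ℝ) ^ 2))) * (n ! : ℝ) ^ 2 with hE
  have hlipρ : ∀ (ρ τ : Perm G) (a b : G), ∀ y, ∑ x, |(cnt A (ρ * swap a b) τ x y : ℝ) - cnt A ρ τ x y| ≤ 4 :=
    fun ρ τ a b y => (hl G A ρ τ y a b).1
  have hlipτ : ∀ (ρ τ : Perm G) (a b : G), ∀ y, ∑ x, |(cnt A ρ (τ * swap a b) x y : ℝ) - cnt A ρ τ x y| ≤ 4 :=
    fun ρ τ a b y => (hl G A ρ τ y a b).2
  have hb1 : ∀ y, ({q : Perm G × Perm G | c * n ≤ DD A q.1 q.2 y -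
      (∑ ρ, ∑ τ, DD A ρ τ y) / (n ! : ℝ) ^ 2}.ncard : ℝ) ≤ E := by
    intro y
    apply hc G (fun ρ τ => DD A ρ τ y) (8 * B) (c * n) (by positivity) (by positivity)
    · intro ρ τ a b
      exact (hl2 G A B ρ τ _ τ hB hcell (hlipρ ρ τ a b)).1 y
    · intro ρ τ a b
      exact (hl2 G A B ρ τ ρ _ hB hcell (hlipτ ρ τ a b)).1 y
  have hb2 : ∀ y, ({q : Perm G × Perm G | c * n ≤ -GG B A q.1 q.2 y -
      (∑ ρ, ∑ τ, -GG B A ρ τ y) / (n ! : ℝ) ^ 2}.ncard : ℝ) ≤ E := by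
    intro y
    apply hc G (fun ρ τ => -GG B A ρ τ y) (8 * B) (c * n) (by positivity) (by positivity)
    · intro ρ τ a b
      have h1 := (hl2 G A B ρ τ _ τ hB hcell (hlipρ ρ τ a b)).2.1 y
      have h2 : |-GG B A (ρ * swap a b) τ y - -GG B A ρ τ y| = |GG B A (ρ * swap a b) τ y - GG B A ρ τ y| := by
        rw [← abs_neg]; congr 1; ring
      rw [h2]; exact h1
    · intro ρ τ a b
      have h1 := (hl2 G A B ρ τ ρ _ hB hcell (hlipτ ρ τ a b)).2.1 y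
      have h2 : |-GG B A ρ (τ * swap a b) y - -GG B A ρ τ y| = |GG B A ρ (τ * swap a b) y - GG B A ρ τ y| := by
        rw [← abs_neg]; congr 1; ring
      rw [h2]; exact h1
  have hb3 : ∀ y y', ({q : Perm G × Perm G | c * n ≤ HH B A q.1 q.2 y y' -
      (∑ ρ, ∑ τ, HH B A ρ τ y y') / (n ! : ℝ) ^ 2}.ncard : ℝ) ≤ E := by
    intro y y'
    apply hc G (fun ρ τ => HH B A ρ τ y y') (8 * B) (c * n) (by positivity) (by positivity)
    · intro ρ τ a b
      exact (hl2 G A B ρ τ _ τ hB hcell (hlipρ ρ τ a b)).2.2 y y'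
    · intro ρ τ a b
      exact (hl2 G A B ρ τ ρ _ hB hcell (hlipτ ρ τ a b)).2.2 y y'
  have hcount : ((Fintype.card (G ⊕ G ⊕ (G × G)) : ℕ) : ℝ) * E < (Fintype.card (Perm G × Perm G) : ℕ) := by
    have h1 : Fintype.card (G ⊕ G ⊕ (G × G)) = n + (n + n * n) := by
      simp [Fintype.card_sum, Fintype.card_prod, hndef]
    have h2 : Fintype.card (Perm G × Perm G) = n ! * n ! := by
      rw [Fintype.card_prod, Fintype.card_perm]
    rw [h1, h2]
    push_cast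
    have h3 := hN1 n hn1 hn0
    have h4 : (c * n) ^ 2 / (4 * n * (8 * B : ℝ) ^ 2) = c ^ 2 / (256 * B ^ 2) * n := by
      field_simp
      ring
    rw [hE, h4]
    have h5 := mul_lt_mul_of_pos_right h3 hF
    rw [one_mul] at h5
    calc _ = ((n : ℝ) + ((n : ℝ) + (n : ℝ) * n)) * Real.exp (-(c ^ 2 / (256 * B ^ 2) * n)) * (n ! : ℝ) ^ 2 := by ring
      _ < (n ! : ℝ) ^ 2 := h5
      _ = _ := by ring
  obtain ⟨q, hq⟩ := union_bound (α := Perm G × Perm G) (I := G ⊕ G ⊕ (G × G))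
    (fun i => Sum.elim (fun y => {q : Perm G × Perm G | c * n ≤ DD A q.1 q.2 y -
      (∑ ρ, ∑ τ, DD A ρ τ y) / (n ! : ℝ) ^ 2})
      (Sum.elim (fun y => {q : Perm G × Perm G | c * n ≤ -GG B A q.1 q.2 y -
      (∑ ρ, ∑ τ, -GG B A ρ τ y) / (n ! : ℝ) ^ 2})
      (fun p => {q : Perm G × Perm G | c * n ≤ HH B A q.1 q.2 p.1 p.2 -
      (∑ ρ, ∑ τ, HH B A ρ τ p.1 p.2) / (n ! : ℝ) ^ 2})) i) E
    (by
      rintro (y | y | p)
      · exact hb1 y
      · exact hb2 y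
      · exact hb3 p.1 p.2) hcount
  refine ⟨q.1, q.2, fun y => ?_, fun y => ?_, fun y y' hy => ?_⟩
  · have h1 := hq (Sum.inl y)
    simp only [Sum.elim_inl, Set.mem_ofPred_eq, not_le] at h1
    have h2 : (∑ ρ, ∑ τ, DD A ρ τ y) / (n ! : ℝ) ^ 2 ≤ ∑ x, pr A x := by
      rw [div_le_iff₀ hF]; exact m1 y
    nlinarith
  · have h1 := hq (Sum.inr (Sum.inl y))
    simp only [Sum.elim_inl, Sum.elim_inr, Set.mem_ofPred_eq, not_le] at h1
    have h2 : P2 A - 2 * n / B ≤ (∑ ρ, ∑ τ, GG B A ρ τ y) / (n ! : ℝ) ^ 2 := by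
      rw [le_div_iff₀ hF]; exact m2 y
    have h3 : (∑ ρ, ∑ τ, -GG B A ρ τ y) = - ∑ ρ, ∑ τ, GG B A ρ τ y := by
      simp [sum_neg_distrib]
    rw [h3, neg_div] at h1
    have h4 : 2 / (B : ℝ) * n = 2 * n / B := by ring
    have h5 : (2 / (B : ℝ) + η) * n = 2 * n / B + η * n := by rw [add_mul, h4]
    rw [h5]
    nlinarith
  · have h1 := hq (Sum.inr (Sum.inr (y, y')))
    simp only [Sum.elim_inr, Set.mem_ofPred_eq, not_le] at h1
    have h2 : (∑ ρ, ∑ τ, HH B A ρ τ y y') / (n ! : ℝ) ^ 2 ≤ P2 A + 2 := by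
      rw [div_le_iff₀ hF]; exact m3 y y' hy
    nlinarith

end Pool.Agent.H656.AV
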